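import Mathlib
import Pool.Agent.X130.RelE

set_option autoImplicit false

/-!
# Broadcast dimension
-/

namespace Pool.Agent.X130.BD

open Pool.Agent.NPC Pool.Agent.NPC.H634R2

/-- `d_k(x, y) = min {d(x, y), k + 1}`, the distance being `∞` between different components. -/
noncomputable def dk (E : List (ℕ × ℕ)) (k x y : ℕ) : ℕ∞ := min ((toG E).edist x y) (k + 1)

/-- `f` is a resolving broadcast of the graph with the vertices `V` and the edges `E`. -/
def Resolving (V : List ℕ) (E : List (ℕ × ℕ)) (f : ℕ → ℕ) : Prop :=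
  ∀ x ∈ V, ∀ y ∈ V, x ≠ y → ∃ z ∈ V, 0 < f z ∧ dk E (f z) x z ≠ dk E (f z) y z

/-- The broadcast dimension. -/
noncomputable def bdim (V : List ℕ) (E : List (ℕ × ℕ)) : ℕ :=
  sInf {s | ∃ f : ℕ → ℕ, Resolving V E f ∧ (V.map f).sum = s}

/-- The decision problem: given a graph `G` and `k`, is `bdim(G) ≤ k`? -/
def BroadcastDim (I : (List ℕ × List (ℕ × ℕ)) × ℕ) : Prop :=
  IsGraph I.1.1 I.1.2 ∧ bdim I.1.1 I.1.2 ≤ I.2

theorem resolving_one (V : List ℕ) (E : List (ℕ × ℕ)) : Resolving V E (fun _ => 1) := by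
  intro x hx y hy hne
  refine ⟨x, hx, one_pos, ?_⟩
  unfold dk
  rw [SimpleGraph.edist_self]
  intro h
  have h1 : (min ((toG E).edist y x) ((1 : ℕ) + 1) : ℕ∞) = 0 := by
    rw [← h]
    simp
  rcases min_eq_iff.1 h1 with h2 | h2
  · exact hne (SimpleGraph.edist_eq_zero_iff.1 h2.1).symm
  · simp at h2

theorem bdim_le_iff {V : List ℕ} {E : List (ℕ × ℕ)} {k : ℕ} :
    bdim V E ≤ k ↔ ∃ f, Resolving V E f ∧ (V.map f).sum ≤ k := by
  constructor
  · intro h
    obtain ⟨f, hf, hs⟩ := Nat.sInf_mem (s := {s | ∃ f : ℕ → ℕ, Resolving V E f ∧ (V.map f).sum = s})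
      ⟨_, _, resolving_one V E, rfl⟩
    exact ⟨f, hf, hs.le.trans h⟩
  · rintro ⟨f, hf, hs⟩
    have h1 : bdim V E ≤ (V.map f).sum := Nat.sInf_le ⟨f, hf, rfl⟩
    exact h1.trans hs

end Pool.Agent.X130.BD
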