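import Mathlib
import Pool.Agent.X130.BD.Defs

set_option autoImplicit false

/-!
# Broadcast dimension: the reduction from vertex cover
-/

namespace Pool.Agent.X130.BD

open Pool.Agent.NPC Pool.Agent.NPC.H634R2

/-! ### Graphs with a universal vertex -/

section univ
variable {V : List ℕ} {R : ℕ → ℕ → Bool}

theorem edist_cases (hR : ∀ a b, R a b = R b a) {u : ℕ} (hu : u ∈ V) (hU : ∀ x, R u x = true)
    {x z : ℕ} (hx : x ∈ V) (hz : z ∈ V) :
    (toG (relE V R)).edist x z = if x = z then 0 else if R x z = true then 1 else 2 := by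
  split_ifs with h1 h2
  · rw [h1, SimpleGraph.edist_self]
  · rw [SimpleGraph.edist_eq_one_iff_adj, adj_relE hR]
    exact ⟨hx, hz, h1, h2⟩
  · have hxu : x ≠ u := by
      rintro rfl
      exact h2 (hU z)
    have hzu : z ≠ u := by
      rintro rfl
      exact h2 ((hR _ _).trans (hU x))
    have e1 : (toG (relE V R)).edist x u = 1 := by
      rw [SimpleGraph.edist_eq_one_iff_adj, adj_relE hR]
      exact ⟨hx, hu, hxu, (hR _ _).trans (hU x)⟩
    have e2 : (toG (relE V R)).edist u z = 1 := by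
      rw [SimpleGraph.edist_eq_one_iff_adj, adj_relE hR]
      exact ⟨hu, hz, hzu.symm, hU z⟩
    have h3 : (toG (relE V R)).edist x z ≤ 2 := by
      have := (toG (relE V R)).edist_triangle (u := x) (v := u) (w := z)
      rw [e1, e2] at this
      exact this.trans (by norm_num)
    have h4 : (toG (relE V R)).edist x z ≠ 0 := fun h => h1 (SimpleGraph.edist_eq_zero_iff.1 h)
    have h5 : (toG (relE V R)).edist x z ≠ 1 := fun h => by
      rw [SimpleGraph.edist_eq_one_iff_adj, adj_relE hR] at h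
      exact h2 h.2.2.2
    generalize (toG (relE V R)).edist x z = e at *
    cases e using ENat.recTopCoe with
    | top => exact absurd h3 (by simp)
    | coe n =>
      have h6 : n ≤ 2 := by exact_mod_cast h3
      have h7 : n ≠ 0 := by exact_mod_cast h4
      have h8 : n ≠ 1 := by exact_mod_cast h5
      have h9 : n = 2 := by omega
      rw [h9]
      rfl

theorem dk_eq (hR : ∀ a b, R a b = R b a) {u : ℕ} (hu : u ∈ V) (hU : ∀ x, R u x = true)
    {x z k : ℕ} (hx : x ∈ V) (hz : z ∈ V) (hk : 0 < k) :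
    dk (relE V R) k x z = ((if x = z then 0 else if R x z = true then 1 else 2 : ℕ) : ℕ∞) := by
  unfold dk
  rw [edist_cases hR hu hU hx hz]
  have h1 : ((2 : ℕ) : ℕ∞) ≤ (k : ℕ∞) + 1 := by
    have : 2 ≤ k + 1 := by omega
    exact_mod_cast this
  split_ifs
  · simp
  · rw [min_eq_left]
    · rfl
    · exact le_trans (by norm_num) h1
  · rw [min_eq_left]
    · rfl
    · exact h1

theorem resolving_iff (hR : ∀ a b, R a b = R b a) {u : ℕ} (hu : u ∈ V) (hU : ∀ x, R u x = true)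
    {f : ℕ → ℕ} : Resolving V (relE V R) f ↔ ∀ x ∈ V, ∀ y ∈ V, x ≠ y →
      ∃ z ∈ V, 0 < f z ∧ (z = x ∨ z = y ∨ R x z ≠ R y z) := by
  constructor
  · intro h x hx y hy hne
    obtain ⟨z, hz, hf, hd⟩ := h x hx y hy hne
    refine ⟨z, hz, hf, ?_⟩
    rw [dk_eq hR hu hU hx hz hf, dk_eq hR hu hU hy hz hf] at hd
    by_contra hcon
    push Not at hcon
    obtain ⟨h1, h2, h3⟩ := hcon
    apply hd
    rw [if_neg (Ne.symm h1), if_neg (Ne.symm h2), h3]
  · intro h x hx y hy hne
    obtain ⟨z, hz, hf, hd⟩ := h x hx y hy hne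
    refine ⟨z, hz, hf, ?_⟩
    rw [dk_eq hR hu hU hx hz hf, dk_eq hR hu hU hy hz hf, Ne, ENat.coe_inj]
    rcases hd with rfl | rfl | hd
    · rw [if_pos rfl, if_neg (Ne.symm hne)]
      split_ifs <;> simp
    · rw [if_pos rfl, if_neg hne]
      split_ifs <;> simp
    · by_cases h1 : x = z
      · rw [if_pos h1, if_neg (by rintro rfl; exact hne h1)]
        split_ifs <;> simp
      · by_cases h2 : y = z
        · rw [if_neg h1, if_pos h2]
          split_ifs <;> simp
        · rw [if_neg h1, if_neg h2]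
          cases hx' : R x z <;> cases hy' : R y z
          · rw [hx', hy'] at hd; exact absurd rfl hd
          · simp
          · simp
          · rw [hx', hy'] at hd; exact absurd rfl hd
end univ

/-! ### The construction -/

/-- incidence of the item `c` (a vertex) and the item `d` (an edge) -/
def inc (E : List (ℕ × ℕ)) (c d : ℕ) : Bool :=
  E.zipIdx.any (fun p => decide (d = 2 * p.2 + 3 ∧ (c = 2 * p.1.1 + 2 ∨ c = 2 * p.1.2 + 2)))

/-- half of the adjacency relation -/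
def Rh (E : List (ℕ × ℕ)) (a b : ℕ) : Bool :=
  decide (a = 0 ∨ (a % 4 = 1 ∧ b % 4 = 2 ∧ a / 4 = b / 4) ∨
    (a % 4 = 3 ∧ (b % 4 = 1 ∨ b % 4 = 2) ∧ a / 4 = b / 4) ∨
    (a % 4 = 3 ∧ a / 4 % 2 = 0 ∧ (b = 1 ∨ b = 2))) ||
    (decide (a % 4 = 3 ∧ b % 4 = 3) && inc E (a / 4) (b / 4))

/-- the adjacency relation -/
def R (E : List (ℕ × ℕ)) (a b : ℕ) : Bool := Rh E a b || Rh E b a

/-- the items -/
def itm (V : List ℕ) (E : List (ℕ × ℕ)) : List ℕ :=
  V.map (fun v => 2 * v + 2) ++ E.zipIdx.map (fun p => 2 * p.2 + 3)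

/-- all indices of forced pairs -/
def itm0 (V : List ℕ) (E : List (ℕ × ℕ)) : List ℕ := 0 :: 1 :: itm V E

/-- the vertices -/
def vs (V : List ℕ) (E : List (ℕ × ℕ)) : List ℕ :=
  0 :: ((itm0 V E).flatMap (fun c => [4 * c + 1, 4 * c + 2]) ++ (itm V E).map (fun c => 4 * c + 3))

/-- the reduction -/
def red (I : (List ℕ × List (ℕ × ℕ)) × ℕ) : (List ℕ × List (ℕ × ℕ)) × ℕ :=
  ((vs I.1.1 I.1.2, relE (vs I.1.1 I.1.2) (R I.1.2)), (itm0 I.1.1 I.1.2).length + I.2)

theorem red_poly : NPC.Poly red := by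
  unfold red vs itm0 itm
  refine NPC.Poly.pair (NPC.Poly.pair (by fun_prop) (relE_poly (by fun_prop) ?_)) (by fun_prop)
  unfold R Rh inc
  fun_prop

theorem R_comm (E : List (ℕ × ℕ)) (a b : ℕ) : R E a b = R E b a := by
  unfold R
  exact Bool.or_comm _ _

theorem R_zero (E : List (ℕ × ℕ)) (b : ℕ) : R E 0 b = true := by
  simp [R, Rh]

theorem R11 (E : List (ℕ × ℕ)) (c d : ℕ) : R E (4 * c + 1) (4 * d + 1) = false := by
  unfold R Rh
  have h1 : (4 * c + 1) % 4 = 1 := by omega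
  have h2 : (4 * d + 1) % 4 = 1 := by omega
  simp [h1, h2]

theorem R22 (E : List (ℕ × ℕ)) (c d : ℕ) : R E (4 * c + 2) (4 * d + 2) = false := by
  unfold R Rh
  have h1 : (4 * c + 2) % 4 = 2 := by omega
  have h2 : (4 * d + 2) % 4 = 2 := by omega
  simp [h1, h2]

theorem R12 (E : List (ℕ × ℕ)) (c d : ℕ) : R E (4 * c + 1) (4 * d + 2) = true ↔ c = d := by
  unfold R Rh
  have h1 : (4 * c + 1) % 4 = 1 := by omega
  have h2 : (4 * d + 2) % 4 = 2 := by omega
  have h3 : (4 * c + 1) / 4 = c := by omega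
  have h4 : (4 * d + 2) / 4 = d := by omega
  simp [h1, h2, h3, h4]

theorem R21 (E : List (ℕ × ℕ)) (c d : ℕ) : R E (4 * c + 2) (4 * d + 1) = true ↔ c = d := by
  rw [R_comm, R12, eq_comm]

theorem R31 (E : List (ℕ × ℕ)) (c d : ℕ) :
    R E (4 * c + 3) (4 * d + 1) = true ↔ c = d ∨ (c % 2 = 0 ∧ d = 0) := by
  unfold R Rh
  have h1 : (4 * c + 3) % 4 = 3 := by omega
  have h2 : (4 * d + 1) % 4 = 1 := by omega
  have h3 : (4 * c + 3) / 4 = c := by omega
  have h4 : (4 * d + 1) / 4 = d := by omega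
  simp [h1, h2, h3, h4]

theorem R32 (E : List (ℕ × ℕ)) (c d : ℕ) :
    R E (4 * c + 3) (4 * d + 2) = true ↔ c = d ∨ (c % 2 = 0 ∧ d = 0) := by
  unfold R Rh
  have h1 : (4 * c + 3) % 4 = 3 := by omega
  have h2 : (4 * d + 2) % 4 = 2 := by omega
  have h3 : (4 * c + 3) / 4 = c := by omega
  have h4 : (4 * d + 2) / 4 = d := by omega
  simp [h1, h2, h3, h4]

theorem R33 (E : List (ℕ × ℕ)) (c d : ℕ) :
    R E (4 * c + 3) (4 * d + 3) = true ↔ inc E c d = true ∨ inc E d c = true := by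
  unfold R Rh
  have h1 : (4 * c + 3) % 4 = 3 := by omega
  have h2 : (4 * d + 3) % 4 = 3 := by omega
  have h3 : (4 * c + 3) / 4 = c := by omega
  have h4 : (4 * d + 3) / 4 = d := by omega
  simp [h1, h2, h3, h4]

end Pool.Agent.X130.BD
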