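import Mathlib
import Pool.Agent.X130.BD.Main

set_option autoImplicit false

/-!
# Broadcast dimension: correctness of the reduction and hardness
-/

namespace Pool.Agent.X130.BD

open Pool.Agent.NPC Pool.Agent.NPC.H634R2

variable {V : List ℕ} {E : List (ℕ × ℕ)} {k : ℕ}

theorem zsnd (E : List (ℕ × ℕ)) : (E.zipIdx.map Prod.snd).Nodup := by
  rw [List.zipIdx_map_snd]
  exact List.nodup_range'

theorem zinj {E : List (ℕ × ℕ)} {p q : (ℕ × ℕ) × ℕ} (hp : p ∈ E.zipIdx) (hq : q ∈ E.zipIdx)
    (h : p.2 = q.2) : p = q := List.inj_on_of_nodup_map (zsnd E) hp hq h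

theorem zmem {E : List (ℕ × ℕ)} {p : (ℕ × ℕ) × ℕ} (hp : p ∈ E.zipIdx) : p.1 ∈ E := by
  obtain ⟨x, i⟩ := p
  exact List.mem_of_getElem? (List.mem_zipIdx_iff_getElem?.1 hp)

theorem zex {E : List (ℕ × ℕ)} {e : ℕ × ℕ} (he : e ∈ E) : ∃ p ∈ E.zipIdx, p.1 = e := by
  obtain ⟨j, hj, h⟩ := List.getElem_of_mem he
  exact ⟨(e, j), by rw [List.mem_zipIdx_iff_getElem?, List.getElem?_eq_getElem hj, h], rfl⟩

theorem mem_itm {c : ℕ} : c ∈ itm V E ↔ (∃ v ∈ V, c = 2 * v + 2) ∨ ∃ p ∈ E.zipIdx, c = 2 * p.2 + 3 := by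
  unfold itm
  simp only [List.mem_append, List.mem_map]
  constructor
  · rintro (⟨v, hv, rfl⟩ | ⟨v, hv, rfl⟩)
    · exact Or.inl ⟨v, hv, rfl⟩
    · exact Or.inr ⟨v, hv, rfl⟩
  · rintro (⟨v, hv, rfl⟩ | ⟨v, hv, rfl⟩)
    · exact Or.inl ⟨v, hv, rfl⟩
    · exact Or.inr ⟨v, hv, rfl⟩

theorem itm_nodup (hV : V.Nodup) : (itm V E).Nodup := by
  unfold itm
  rw [List.nodup_append']
  refine ⟨hV.map fun a b h => by omega, ?_, ?_⟩
  · refine List.Nodup.map_on (fun p hp q hq h => zinj hp hq (by omega)) (List.Nodup.of_map _ (zsnd E))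
  · intro x hx hx'
    obtain ⟨v, _, rfl⟩ := List.mem_map.1 hx
    obtain ⟨p, _, h⟩ := List.mem_map.1 hx'
    omega

theorem itm_ge {c : ℕ} (hc : c ∈ itm V E) : 2 ≤ c := by
  rcases mem_itm.1 hc with ⟨v, _, rfl⟩ | ⟨v, _, rfl⟩ <;> omega

theorem itm0_nodup (hV : V.Nodup) : (itm0 V E).Nodup := by
  unfold itm0
  rw [List.nodup_cons, List.nodup_cons]
  refine ⟨?_, ?_, itm_nodup hV⟩
  · intro h
    rcases List.mem_cons.1 h with h | h
    · omega
    · have := itm_ge h; omega
  · intro h
    have := itm_ge h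
    omega

theorem mem_vs {x : ℕ} : x ∈ vs V E ↔ x = 0 ∨ (∃ c ∈ itm0 V E, x = 4 * c + 1) ∨
    (∃ c ∈ itm0 V E, x = 4 * c + 2) ∨ ∃ c ∈ itm V E, x = 4 * c + 3 := by
  unfold vs
  simp only [List.mem_cons, List.mem_append, List.mem_flatMap, List.mem_map, List.not_mem_nil,
    or_false]
  constructor
  · rintro (h | ⟨c, hc, h | h⟩ | ⟨c, hc, rfl⟩)
    · exact Or.inl h
    · exact Or.inr (Or.inl ⟨c, hc, h⟩)
    · exact Or.inr (Or.inr (Or.inl ⟨c, hc, h⟩))
    · exact Or.inr (Or.inr (Or.inr ⟨c, hc, rfl⟩))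
  · rintro (h | ⟨c, hc, h⟩ | ⟨c, hc, h⟩ | ⟨c, hc, rfl⟩)
    · exact Or.inl h
    · exact Or.inr (Or.inl ⟨c, hc, Or.inl h⟩)
    · exact Or.inr (Or.inl ⟨c, hc, Or.inr h⟩)
    · exact Or.inr (Or.inr ⟨c, hc, rfl⟩)

theorem vs_nodup (hV : V.Nodup) : (vs V E).Nodup := by
  unfold vs
  rw [List.nodup_cons, List.nodup_append', List.nodup_flatMap]
  refine ⟨?_, ⟨?_, ?_⟩, (itm_nodup hV).map fun a b h => by omega, ?_⟩
  · simp only [List.mem_append, List.mem_flatMap, List.mem_map, List.mem_cons, List.not_mem_nil,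
      or_false]
    rintro (⟨c, _, h | h⟩ | ⟨c, _, h⟩) <;> omega
  · intro c _
    simp
  · refine (itm0_nodup hV).imp ?_
    intro a b hab x hx hx'
    simp only [List.mem_cons, List.not_mem_nil, or_false] at hx hx'
    omega
  · intro x hx hx'
    obtain ⟨c, _, h⟩ := List.mem_flatMap.1 hx
    obtain ⟨d, _, h'⟩ := List.mem_map.1 hx'
    simp only [List.mem_cons, List.not_mem_nil, or_false] at h
    omega

theorem cost_eq (f : ℕ → ℕ) : ((vs V E).map f).sum =
    f 0 + (((itm0 V E).map (fun c => f (4 * c + 1) + f (4 * c + 2))).sum +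
      ((itm V E).map (fun c => f (4 * c + 3))).sum) := by
  unfold vs
  rw [List.map_cons, List.sum_cons, List.map_append, List.sum_append, List.map_map]
  congr 2
  generalize itm0 V E = L
  induction L with
  | nil => rfl
  | cons c L ih =>
    rw [List.flatMap_cons, List.map_append, List.sum_append, ih, List.map_cons, List.sum_cons]
    simp

theorem inc_iff {c d : ℕ} : inc E c d = true ↔ ∃ p ∈ E.zipIdx, d = 2 * p.2 + 3 ∧
    (c = 2 * p.1.1 + 2 ∨ c = 2 * p.1.2 + 2) := by
  unfold inc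
  simp only [List.any_eq_true, decide_eq_true_eq]

open Classical in
theorem sum_ind_le {L : List ℕ} (hL : L.Nodup) (C : Finset ℕ) :
    (L.map (fun v => if v ∈ C then 1 else 0)).sum ≤ C.card := by
  have h1 : (L.map (fun v => if v ∈ C then 1 else 0)).sum = (L.filter (fun v => decide (v ∈ C))).length := by
    induction L with
    | nil => rfl
    | cons a L ih =>
      rw [List.map_cons, List.sum_cons, ih (List.nodup_cons.1 hL).2, List.filter_cons]
      by_cases h : a ∈ C
      · simp [h]; omega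
      · simp [h]
  rw [h1, ← List.toFinset_card_of_nodup (hL.filter _)]
  refine Finset.card_le_card fun v hv => ?_
  have := List.mem_filter.1 (List.mem_toFinset.1 hv)
  simpa using this.2

/-! ### From a cover to a resolving broadcast -/

theorem fwd (hG : IsGraph V E) (h : VC ((V, E), k)) : BroadcastDim (red ((V, E), k)) := by
  classical
  obtain ⟨C, hCV, hCk, hC⟩ := h
  simp only at hCV hCk hC
  refine ⟨isGraph_relE (vs_nodup hG.1), ?_⟩
  simp only [red]
  rw [bdim_le_iff]
  set f : ℕ → ℕ := fun x => if x % 4 = 1 ∨ (x % 4 = 3 ∧ ∃ v ∈ C, x / 4 = 2 * v + 2) then 1 else 0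
    with hf
  have f1 : ∀ c, f (4 * c + 1) = 1 := fun c => by simp only [hf]; rw [if_pos (by omega)]
  have f2 : ∀ c, f (4 * c + 2) = 0 := fun c => by simp only [hf]; rw [if_neg (by omega)]
  have f0 : f 0 = 0 := by simp [hf]
  have f3 : ∀ v ∈ C, f (4 * (2 * v + 2) + 3) = 1 := fun v hv => by
    simp only [hf]
    rw [if_pos (Or.inr ⟨by omega, v, hv, by omega⟩)]
  refine ⟨f, ?_, ?_⟩
  · rw [resolving_iff (R_comm E) (mem_vs.2 (Or.inl rfl)) (R_zero E)]
    have m0 : 0 ∈ itm0 V E := by simp [itm0]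
    have m1 : 1 ∈ itm0 V E := by simp [itm0]
    have mi : ∀ c ∈ itm V E, c ∈ itm0 V E := fun c hc => by simp [itm0, hc]
    have mP : ∀ c ∈ itm0 V E, 4 * c + 1 ∈ vs V E := fun c hc => mem_vs.2 (Or.inr (Or.inl ⟨c, hc, rfl⟩))
    -- a forced vertex which sees exactly one of the two
    have key : ∀ x y, ∀ c ∈ itm0 V E, ¬ (R E x (4 * c + 1) = true ↔ R E y (4 * c + 1) = true) →
        ∃ z ∈ vs V E, 0 < f z ∧ (z = x ∨ z = y ∨ R E x z ≠ R E y z) := by
      intro x y c hc h
      refine ⟨4 * c + 1, mP c hc, by rw [f1]; omega, Or.inr (Or.inr ?_)⟩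
      intro h'
      rw [h'] at h
      exact h Iff.rfl
    have sym : ∀ x y, (∃ z ∈ vs V E, 0 < f z ∧ (z = x ∨ z = y ∨ R E x z ≠ R E y z)) →
        ∃ z ∈ vs V E, 0 < f z ∧ (z = y ∨ z = x ∨ R E y z ≠ R E x z) := by
      rintro x y ⟨z, h1, h2, h3 | h3 | h3⟩
      · exact ⟨z, h1, h2, Or.inr (Or.inl h3)⟩
      · exact ⟨z, h1, h2, Or.inl h3⟩
      · exact ⟨z, h1, h2, Or.inr (Or.inr (Ne.symm h3))⟩
    have c1 : ∀ c ∈ itm0 V E, ∃ z ∈ vs V E, 0 < f z ∧ (z = 0 ∨ z = 4 * c + 2 ∨
        R E 0 z ≠ R E (4 * c + 2) z) := by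
      intro c hc
      by_cases h : c = 0
      · refine key _ _ 1 m1 ?_
        simp only [R_zero, R21, true_iff]
        omega
      · refine key _ _ 0 m0 ?_
        simp only [R_zero, R21, true_iff]
        omega
    have c2 : ∀ c ∈ itm V E, ∃ z ∈ vs V E, 0 < f z ∧ (z = 0 ∨ z = 4 * c + 3 ∨
        R E 0 z ≠ R E (4 * c + 3) z) := by
      intro c hc
      refine key _ _ 1 m1 ?_
      have := itm_ge hc
      simp only [R_zero, R31, true_iff]
      omega
    have c3 : ∀ c ∈ itm0 V E, ∀ d ∈ itm0 V E, c ≠ d → ∃ z ∈ vs V E, 0 < f z ∧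
        (z = 4 * c + 2 ∨ z = 4 * d + 2 ∨ R E (4 * c + 2) z ≠ R E (4 * d + 2) z) := by
      intro c hc d _ hcd
      refine key _ _ c hc ?_
      rw [R21, R21]
      omega
    have c4 : ∀ c ∈ itm0 V E, ∀ d ∈ itm V E, ∃ z ∈ vs V E, 0 < f z ∧
        (z = 4 * c + 2 ∨ z = 4 * d + 3 ∨ R E (4 * c + 2) z ≠ R E (4 * d + 3) z) := by
      intro c hc d hd
      have hd2 := itm_ge hd
      by_cases h : c = d
      · subst h
        rcases mem_itm.1 hd with ⟨v, hv, h⟩ | ⟨p, hp, h⟩
        · refine key _ _ 0 m0 ?_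
          rw [R21, R31]
          omega
        · have : ∃ v ∈ C, v = p.1.1 ∨ v = p.1.2 := by
            rcases hC _ (zmem hp) with h' | h'
            · exact ⟨_, h', Or.inl rfl⟩
            · exact ⟨_, h', Or.inr rfl⟩
          obtain ⟨v, hv, hvp⟩ := this
          refine ⟨4 * (2 * v + 2) + 3, mem_vs.2 (Or.inr (Or.inr (Or.inr ⟨_, mem_itm.2
            (Or.inl ⟨v, hCV v hv, rfl⟩), rfl⟩))), by rw [f3 v hv]; omega, Or.inr (Or.inr ?_)⟩
          have h1 : R E (4 * c + 2) (4 * (2 * v + 2) + 3) = false := by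
            rw [← Bool.not_eq_true, R_comm, R32]
            omega
          have h2 : R E (4 * c + 3) (4 * (2 * v + 2) + 3) = true := by
            rw [R33]
            right
            rw [inc_iff]
            refine ⟨p, hp, h, ?_⟩
            rcases hvp with rfl | rfl
            · exact Or.inl rfl
            · exact Or.inr rfl
          rw [h1, h2]
          simp
      · by_cases h0 : c = 0
        · refine key _ _ d (mi d hd) ?_
          rw [R21, R31]
          omega
        · refine key _ _ c hc ?_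
          rw [R21, R31]
          omega
    have c5 : ∀ c ∈ itm V E, ∀ d ∈ itm V E, c ≠ d → ∃ z ∈ vs V E, 0 < f z ∧
        (z = 4 * c + 3 ∨ z = 4 * d + 3 ∨ R E (4 * c + 3) z ≠ R E (4 * d + 3) z) := by
      intro c hc d hd hcd
      have hc2 := itm_ge hc
      refine key _ _ c (mi c hc) ?_
      rw [R31, R31]
      omega
    intro x hx y hy hne
    rcases mem_vs.1 hx with rfl | ⟨c, hc, rfl⟩ | ⟨c, hc, rfl⟩ | ⟨c, hc, rfl⟩ <;>
      rcases mem_vs.1 hy with rfl | ⟨d, hd, rfl⟩ | ⟨d, hd, rfl⟩ | ⟨d, hd, rfl⟩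
    · exact absurd rfl hne
    · exact ⟨_, hy, by rw [f1]; omega, Or.inr (Or.inl rfl)⟩
    · exact c1 d hd
    · exact c2 d hd
    · exact ⟨_, hx, by rw [f1]; omega, Or.inl rfl⟩
    · exact ⟨_, hx, by rw [f1]; omega, Or.inl rfl⟩
    · exact ⟨_, hx, by rw [f1]; omega, Or.inl rfl⟩
    · exact ⟨_, hx, by rw [f1]; omega, Or.inl rfl⟩
    · exact sym _ _ (c1 c hc)
    · exact ⟨_, hy, by rw [f1]; omega, Or.inr (Or.inl rfl)⟩
    · exact c3 c hc d hd (by rintro rfl; exact hne rfl)
    · exact c4 c hc d hd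
    · exact sym _ _ (c2 c hc)
    · exact ⟨_, hy, by rw [f1]; omega, Or.inr (Or.inl rfl)⟩
    · exact sym _ _ (c4 d hd c hc)
    · exact c5 c hc d hd (by rintro rfl; exact hne rfl)
  · rw [cost_eq, f0]
    simp only [f1, f2, List.map_const', List.sum_replicate, smul_eq_mul, add_zero, mul_one, zero_add]
    have h1 : ((itm V E).map (fun c => f (4 * c + 3))).sum ≤ C.card := by
      unfold itm
      rw [List.map_append, List.sum_append, List.map_map, List.map_map]
      have h2 : (E.zipIdx.map ((fun c => f (4 * c + 3)) ∘ fun p => 2 * p.2 + 3)).sum = 0 := by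
        rw [List.sum_eq_zero_iff]
        intro x hx
        obtain ⟨p, _, rfl⟩ := List.mem_map.1 hx
        simp only [Function.comp, hf]
        rw [if_neg]
        rintro (h | ⟨_, v, _, h⟩) <;> omega
      rw [h2, add_zero]
      have h3 : V.map ((fun c => f (4 * c + 3)) ∘ fun v => 2 * v + 2) =
          V.map (fun v => if v ∈ C then 1 else 0) := by
        refine List.map_congr_left fun v _ => ?_
        simp only [Function.comp]
        split_ifs with h
        · exact f3 v h
        · simp only [hf]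
          rw [if_neg]
          rintro (h' | ⟨_, w, hw, h'⟩)
          · omega
          · have : w = v := by omega
            exact h (this ▸ hw)
      rw [h3]
      exact sum_ind_le hG.1 C
    omega

/-! ### From a resolving broadcast to a cover -/

/-- the vertex of the graph belonging to an item -/
def rep (E : List (ℕ × ℕ)) (c : ℕ) : ℕ := if c % 2 = 0 then (c - 2) / 2 else (E.getD ((c - 3) / 2) (0, 0)).1

theorem rep_v (v : ℕ) : rep E (2 * v + 2) = v := by
  unfold rep
  rw [if_pos (by omega)]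
  omega

theorem rep_e {p : (ℕ × ℕ) × ℕ} (hp : p ∈ E.zipIdx) : rep E (2 * p.2 + 3) = p.1.1 := by
  unfold rep
  rw [if_neg (by omega)]
  have h1 : (2 * p.2 + 3 - 3) / 2 = p.2 := by omega
  obtain ⟨e, j⟩ := p
  rw [h1, List.getD_eq_getElem?_getD, List.mem_zipIdx_iff_getElem?.1 hp]
  rfl

theorem bwd (hG : IsGraph V E) (h : BroadcastDim (red ((V, E), k))) : VC ((V, E), k) := by
  classical
  obtain ⟨-, h⟩ := h
  simp only [red] at h
  rw [bdim_le_iff] at h
  obtain ⟨f, hf, hc⟩ := h
  rw [resolving_iff (R_comm E) (mem_vs.2 (Or.inl rfl)) (R_zero E)] at hf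
  have m1 : ∀ c ∈ itm0 V E, 4 * c + 1 ∈ vs V E := fun c hc => mem_vs.2 (Or.inr (Or.inl ⟨c, hc, rfl⟩))
  have m2 : ∀ c ∈ itm0 V E, 4 * c + 2 ∈ vs V E := fun c hc =>
    mem_vs.2 (Or.inr (Or.inr (Or.inl ⟨c, hc, rfl⟩)))
  have m3 : ∀ c ∈ itm V E, 4 * c + 3 ∈ vs V E := fun c hc =>
    mem_vs.2 (Or.inr (Or.inr (Or.inr ⟨c, hc, rfl⟩)))
  have mi : ∀ c ∈ itm V E, c ∈ itm0 V E := fun c hc => by simp [itm0, hc]
  -- forced pairs
  have hforce : ∀ c ∈ itm0 V E, 1 ≤ f (4 * c + 1) + f (4 * c + 2) := by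
    intro c hc
    by_contra hcon
    obtain ⟨z, hz, hfz, h⟩ := hf _ (m1 c hc) _ (m2 c hc) (by omega)
    rcases h with rfl | rfl | h
    · omega
    · omega
    · apply h
      rw [Bool.eq_iff_iff]
      rcases mem_vs.1 hz with rfl | ⟨d, hd, rfl⟩ | ⟨d, hd, rfl⟩ | ⟨d, hd, rfl⟩
      · rw [R_comm, R_zero, R_comm, R_zero]
      · rw [R11, R21]
        simp only [Bool.false_eq_true, false_iff]
        rintro rfl
        omega
      · rw [R12, R22]
        simp only [Bool.false_eq_true, iff_false]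
        rintro rfl
        omega
      · rw [R_comm, R31, R_comm E (4 * c + 2), R32]
  -- a missing main vertex sees a chosen vertex
  have hsee : ∀ p ∈ E.zipIdx, ∀ w, (w = 4 * (2 * p.2 + 3) + 1 ∨ w = 4 * (2 * p.2 + 3) + 2) → f w = 0 →
      f (4 * (2 * p.2 + 3) + 3) = 0 → ∃ v ∈ V, (v = p.1.1 ∨ v = p.1.2) ∧
        0 < f (4 * (2 * v + 2) + 3) := by
    intro p hp w hw hfw hfm
    have hci : 2 * p.2 + 3 ∈ itm V E := mem_itm.2 (Or.inr ⟨p, hp, rfl⟩)
    have hwv : w ∈ vs V E := by
      rcases hw with rfl | rfl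
      · exact m1 _ (mi _ hci)
      · exact m2 _ (mi _ hci)
    obtain ⟨z, hz, hfz, h⟩ := hf _ (m3 _ hci) _ hwv (by omega)
    rcases h with rfl | rfl | h
    · omega
    · omega
    · by_contra hcon
      push Not at hcon
      apply h
      rw [Bool.eq_iff_iff]
      rcases mem_vs.1 hz with rfl | ⟨d, hd, rfl⟩ | ⟨d, hd, rfl⟩ | ⟨d, hd, rfl⟩
      · rw [R_comm, R_zero, R_comm, R_zero]
      · rw [R31]
        rcases hw with rfl | rfl
        · rw [R11]
          simp only [Bool.false_eq_true, iff_false]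
          rintro (rfl | h1)
          · omega
          · omega
        · rw [R21]
          omega
      · rw [R32]
        rcases hw with rfl | rfl
        · rw [R12]
          omega
        · rw [R22]
          simp only [Bool.false_eq_true, iff_false]
          rintro (rfl | h1)
          · omega
          · omega
      · have hd2 := itm_ge hd
        have h1 : ¬ (R E w (4 * d + 3) = true) := by
          rcases hw with rfl | rfl
          · rw [R_comm, R31]
            rintro (rfl | h1)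
            · omega
            · omega
          · rw [R_comm, R32]
            rintro (rfl | h1)
            · omega
            · omega
        refine iff_of_false ?_ h1
        rw [R33, inc_iff, inc_iff]
        rintro (⟨p', hp', h2, h3⟩ | ⟨p', hp', h2, h3⟩)
        · omega
        · have h4 : p = p' := zinj hp hp' (by omega)
          subst h4
          have hG' := hG.2.1 _ (zmem hp)
          rcases h3 with rfl | rfl
          · have := hcon p.1.1 hG'.1 (Or.inl rfl)
            omega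
          · have := hcon p.1.2 hG'.2.1 (Or.inr rfl)
            omega
  set Q : ℕ → Prop := fun c => 0 < f (4 * c + 3) ∨ (0 < f (4 * c + 1) ∧ 0 < f (4 * c + 2)) with hQ
  refine ⟨(((itm V E).filter (fun c => decide (Q c))).map (rep E)).toFinset, ?_, ?_, ?_⟩
  · intro v hv
    obtain ⟨c, hc', rfl⟩ := List.mem_map.1 (List.mem_toFinset.1 hv)
    rcases mem_itm.1 (List.mem_filter.1 hc').1 with ⟨v, hvV, rfl⟩ | ⟨p, hp, rfl⟩
    · rw [rep_v]
      exact hvV
    · rw [rep_e hp]
      exact (hG.2.1 _ (zmem hp)).1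
  · refine (List.toFinset_card_le _).trans ?_
    rw [List.length_map]
    rw [cost_eq] at hc
    have h1 : ∀ L : List ℕ, (∀ c ∈ L, c ∈ itm0 V E) →
        (L.filter (fun c => decide (Q c))).length + L.length ≤
          (L.map (fun c => f (4 * c + 1) + f (4 * c + 2))).sum + (L.map (fun c => f (4 * c + 3))).sum := by
      intro L
      induction L with
      | nil => intro _; simp
      | cons c L ih =>
        intro hL
        have h2 := ih fun d hd => hL d (List.mem_cons_of_mem _ hd)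
        have h3 := hforce c (hL c (List.mem_cons_self ..))
        rw [List.filter_cons]
        simp only [List.map_cons, List.sum_cons, List.length_cons]
        by_cases h4 : Q c
        · rw [if_pos (by simpa using h4), List.length_cons]
          simp only [hQ] at h4
          omega
        · rw [if_neg (by simpa using h4)]
          omega
    have h2 := h1 (itm V E) mi
    have h3 := hforce 0 (by simp [itm0])
    have h4 := hforce 1 (by simp [itm0])
    unfold itm0 at hc
    simp only [List.map_cons, List.sum_cons, List.length_cons] at hc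
    simp only
    omega
  · intro e he
    simp only at he ⊢
    obtain ⟨p, hp, rfl⟩ := zex he
    have hci : 2 * p.2 + 3 ∈ itm V E := mem_itm.2 (Or.inr ⟨p, hp, rfl⟩)
    have hmem : ∀ c ∈ itm V E, Q c →
        rep E c ∈ (((itm V E).filter (fun c => decide (Q c))).map (rep E)).toFinset := by
      intro c hc' hq
      exact List.mem_toFinset.2 (List.mem_map.2 ⟨c, List.mem_filter.2 ⟨hc', by simpa using hq⟩, rfl⟩)
    by_cases hq : Q (2 * p.2 + 3)
    · left
      have := hmem _ hci hq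
      rwa [rep_e hp] at this
    · simp only [hQ] at hq
      push Not at hq
      have hfm : f (4 * (2 * p.2 + 3) + 3) = 0 := by omega
      have h5 : ∃ v ∈ V, (v = p.1.1 ∨ v = p.1.2) ∧ 0 < f (4 * (2 * v + 2) + 3) := by
        by_cases h6 : 0 < f (4 * (2 * p.2 + 3) + 1)
        · exact hsee p hp _ (Or.inr rfl) (by have := hq.2 h6; omega) hfm
        · exact hsee p hp _ (Or.inl rfl) (by omega) hfm
      obtain ⟨v, hv, hvp, hfv⟩ := h5
      have h7 := hmem (2 * v + 2) (mem_itm.2 (Or.inl ⟨v, hv, rfl⟩)) (Or.inl hfv)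
      rw [rep_v] at h7
      rcases hvp with rfl | rfl
      · exact Or.inl h7
      · exact Or.inr h7

/-- Deciding whether the broadcast dimension is at most `k` is NP-hard. -/
theorem hard : NPHardP BroadcastDim := by
  refine (hardPr_VC.trans (Pr' := fun _ => True) red_poly (fun _ _ => trivial)
    ?_).toHardI.toNPHardP
  rintro ⟨⟨V, E⟩, k⟩ ⟨hG, hk⟩
  exact ⟨fwd hG, bwd hG⟩

end Pool.Agent.X130.BD
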